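import Pool.Agent.X308.Iw.Main

/-!
# A gap theorem for ideals of the Iwasawa algebra at one finite level
-/

set_option autoImplicit false

namespace Pool.Agent.Results.MP_1186d4_nt.GapAtFiniteLevel

open PowerSeries Pool.Agent.X308.Iw

/-- Let `f` divide `L` in the Iwasawa algebra.  At every level `n`, twisted by any
`c ≡ 1 mod p`, at which `Λ / (L, ω)` is finite, the ideals of `f` and `L` are equal if and only if
`|Λ / (L, ω)| < p ^ (n + 1) * |Λ / (f, ω)|`; the same holds for every `w` in the `n`-th power of the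
maximal ideal which is not divisible by `p`, with the factor `p ^ n`. -/
theorem result (p : ℕ) [Fact p.Prime] (f L : Iwasawa p) (hfL : f ∣ L) :
    (∀ (c : ℤ_[p]) (n : ℕ), (p : ℤ_[p]) ∣ c - 1 →
      Finite (Iwasawa p ⧸ Ideal.span {L, omega p c n}) →
      (Ideal.span {f} = Ideal.span {L} ↔
        Nat.card (Iwasawa p ⧸ Ideal.span {L, omega p c n}) <
          p ^ (n + 1) * Nat.card (Iwasawa p ⧸ Ideal.span {f, omega p c n}))) ∧
    (∀ (w : Iwasawa p) (n : ℕ), ¬ (p : Iwasawa p) ∣ w → 0 < n → w ∈ maxIdeal p ^ n →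
      Finite (Iwasawa p ⧸ Ideal.span {L, w}) →
      (Ideal.span {f} = Ideal.span {L} ↔
        Nat.card (Iwasawa p ⧸ Ideal.span {L, w}) <
          p ^ n * Nat.card (Iwasawa p ⧸ Ideal.span {f, w}))) :=
  ⟨fun _ n hc hfin => span_eq_iff hfL (not_dvd_omega hc n) n.succ_pos (omega_mem hc n) hfin,
    fun _ _ hw hn hwn hfin => span_eq_iff hfL hw hn hwn hfin⟩

end Pool.Agent.Results.MP_1186d4_nt.GapAtFiniteLevel
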