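import Pool.Agent.X298.ZE.Final

/-!
# Kato's explicit reciprocity law at a finite layer, inverted: the values of the zeta elements by rounding

`K` is a number field, `π` a system of `n` complex numbers of absolute value `1` for each place `v ∉ S`, `G` a finite
commutative group, `φ(v) ∈ G` for each `v ∉ S`; for each character `χ` of `G` the series
`∑ tr π_v^k χ(φ(v))^k q_v^{-ks} / k` (`Re s > 1`) has exponential with a continuation `Λ_χ`, meromorphic on `[1/2, 1]`
and analytic at `1/2`. `F` is a Galois extension of `ℚ` with group `G` (through `ι`), `τ` an embedding in `ℂ`,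
and `x ∈ F` satisfies `∑_g χ(g) τ(g x) = w_χ Λ_χ(1/2)` for all `χ`. Then:

* `X_g(T) = |G|⁻¹ ∑_χ w_χ χ(g)⁻¹ exp (∑_h χ(h) S_h(T))`, made of the `|G|` absolutely convergent class sums `S_h(T)` over
  the prime powers with `φ(v)^k = h`, is `τ(g x) + O(1/T)`;
* if `N x` is integral, then for all large `T` an algebraic integer `y` of `F` satisfies
  `|τ(g y) - N X_g(T)| < 1/2` for all `g` if and only if `y = N x`.

In the problem `K = ℚ`, `n = 2`, `π` is the system of normalised Frobenius eigenvalues of `E`, `G = Gal(F/ℚ)`, `φ(v)` the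
Frobenius element, `x` the element with `exp* loc_p z_F = x ω_E`, `w_χ = 0` for `χ` odd, and for `χ` even `w_χ` is
`1 / Ω_E⁺` times the Euler factors at the primes which divide the conductor and not `Sp`.
-/

set_option autoImplicit false

open Filter Topology Asymptotics
open IsDedekindDomain NumberField

namespace Pool.Agent.Results.MP_1186d4_nt.ZetaElementsByRounding

open Pool.Agent.X298.ST Pool.Agent.X298.II Pool.Agent.X298.HT Pool.Agent.X298.ZE

theorem result {K : Type} [Field K] [NumberField K] (S : Set (HeightOneSpectrum (𝓞 K))) (n : ℕ) {G : Type}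
    [CommGroup G] [Finite G] (π : Param S n) (φ : Places S → G)
    -- the `L`-functions of the twists, their continuations and the central values
    (Λ : (G →* ℂ) → ℂ → ℂ) (hc : ∀ χ, IsCont (tw π φ χ) (1 / 2) (Λ χ)) (ha : ∀ χ, AnalyticAt ℂ (Λ χ) (1 / 2))
    {γ : ℝ} (hγ : Real.pi / 2 < γ) (w : (G →* ℂ) → ℂ)
    -- the Galois extension of `ℚ` with group `G`, and the element `x` given by the reciprocity law
    {F : Type} [Field F] [NumberField F] [IsGalois ℚ F] (ι : G ≃* (F ≃ₐ[ℚ] F)) (τ : F →+* ℂ) (x : F)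
    (hx : ∀ χ : G →* ℂ, ∑ᶠ g : G, χ g * τ (ι g x) = w χ * Λ χ (1 / 2))
    (N : ℕ) (hint : IsIntegral ℤ ((N : F) * x)) :
    -- the class sums converge absolutely
    (∀ T : ℝ, 0 < T → ∀ h : G, Summable fun v => ‖cTerm π φ γ T h v‖) ∧
    -- the conjugates of `x`
    (∀ g : G, (fun T : ℝ => approx π φ w γ T g - τ (ι g x)) =O[atTop] (fun T : ℝ => 1 / T)) ∧
    -- the determination of `N x` by rounding
    ∀ᶠ T : ℝ in atTop, ∀ y : 𝓞 F,
      (∀ g : G, ‖τ (ι g (y : F)) - N * approx π φ w γ T g‖ < 1 / 2) ↔ (y : F) = N * x :=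
  main π φ Λ hc ha hγ w ι τ x hx N hint

end Pool.Agent.Results.MP_1186d4_nt.ZetaElementsByRounding
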